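import Pool.Agent.Lib.MP_9ca56c_nt.Crit

/-!
# The number of compression points up to a bound

For an integer `m ≥ 2` at most `N (‖m‖ - 3 log_3 m)` integers up to `N` are compression points for `m`; for `m = 2` at
most `N / 9`.
-/

namespace Pool.Agent.Results.MP_9ca56c_nt.CompressionDensity

open Pool.Agent.Lib.MP_9ca56c_nt

theorem result :
    (∀ m : ℕ, 2 ≤ m →
      (∀ N, 1 ≤ N → (compressionPoints m ∩ Set.Iic N).ncard + cpx (m ^ N) ≤ N * cpx m) ∧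
      (∀ N : ℕ, ((compressionPoints m ∩ Set.Iic N).ncard : ℝ) ≤ N * (cpx m - 3 * Real.logb 3 m)) ∧
      (∀ c : ℝ, (∀ n : ℕ, 1 ≤ n → c * n ≤ cpx (m ^ n)) → ∀ k : ℕ, 1 ≤ k → ∀ N : ℕ,
        ((compressionPoints m ∩ Set.Iic N).ncard : ℝ) ≤
          N * (cpx (m ^ k) - c * k) + ((k - 1) + ∑ r ∈ Finset.Icc 1 k, ((cpx (m ^ r) : ℝ) - c * r)))) ∧
    (∀ N, 9 * (compressionPoints 2 ∩ Set.Iic N).ncard ≤ N) :=
  ⟨fun _ hm => ⟨count_one' hm, count_log hm, fun _ hc => count_real' hm hc⟩, two_ninth⟩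

end Pool.Agent.Results.MP_9ca56c_nt.CompressionDensity
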