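import Pool.Agent.Lib.MP_9ca56c_nt.Crit

/-!
# Finitely many compression points

For an integer `m ≥ 2` let `C(m)` be the set of compression points. `C(m)` is finite if and only if `C(m^k) = ∅` for
some `k ≥ 1`, i.e. if and only if the infimum of `‖m^n‖ / n` is attained.
-/

namespace Pool.Agent.Results.MP_9ca56c_nt.FiniteCompression

open Pool.Agent.Lib.MP_9ca56c_nt

theorem result (m : ℕ) (hm : 2 ≤ m) :
    -- `C(m^k) = ∅` iff powers of `m^k` have no shorter expressions iff the infimum of `‖m^n‖ / n` is attained at `k`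
    (∀ k, 1 ≤ k → List.TFAE [compressionPoints (m ^ k) = ∅,
      ∀ n, 1 ≤ n → cpx (m ^ (k * n)) = n * cpx (m ^ k),
      ∀ n, 1 ≤ n → n * cpx (m ^ k) ≤ k * cpx (m ^ n)]) ∧
    -- criteria for `C(m)` to be finite, and for `C(m)` to be finite and nonempty
    List.TFAE [(compressionPoints m).Finite,
      ∃ k, 1 ≤ k ∧ compressionPoints (m ^ k) = ∅,
      ∃ k, 1 ≤ k ∧ ∃ N, ∀ n, N ≤ n → cpx (m ^ (n + k)) = cpx (m ^ n) + cpx (m ^ k)] ∧
    (((compressionPoints m).Finite ∧ (compressionPoints m).Nonempty) ↔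
      ∃ k, k ∈ compressionPoints m ∧ compressionPoints (m ^ k) = ∅) ∧
    -- the number of compression points beyond `k` when `C(m^k) = ∅`
    (∀ k, 1 ≤ k → compressionPoints (m ^ k) = ∅ →
      {n | n ∈ compressionPoints m ∧ k < n}.ncard ≤
        ∑ r ∈ Finset.Icc 1 k, (k * cpx (m ^ r) - r * cpx (m ^ k)) / k) := by
  refine ⟨fun k hk => ?_, ?_, finite_nonempty_iff hm, bound hm⟩
  · tfae_have 1 ↔ 2 := empty_iff hm k hk
    tfae_have 1 ↔ 3 := empty_iff_att hm k hk
    tfae_finish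
  · tfae_have 1 ↔ 2 := finite_iff hm
    tfae_have 1 ↔ 3 := (three (a := fun n => cpx (m ^ n)) (sub_pow hm)).2
    tfae_finish

end Pool.Agent.Results.MP_9ca56c_nt.FiniteCompression
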