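import Pool.Agent.Lib.MP_9ca56c_nt.Gap

/-!
# Cheap powers force large compression points

For all integers `m` outside a thin set and all `K ≤ m ^ δ`: a power `m^n` with
`‖m^n‖ ≤ (3 + c / (K log (K + 1))) log_3 (m^n)` forces a compression point `j` with `K < j ≤ n`.
-/

namespace Pool.Agent.Results.MP_9ca56c_nt.UniformGap

open Pool.Agent.Lib.MP_9ca56c_nt

theorem result (η : ℝ) (hη : 0 < η) :
    ∃ c : ℝ, 0 < c ∧ ∃ δ : ℝ, 0 < δ ∧ ∃ E : Set ℕ,
      -- the exceptional set is thin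
      (∃ C : ℝ, ∀ x : ℕ, ((E ∩ Set.Iic x).ncard : ℝ) ≤ C * (x : ℝ) ^ η) ∧
      ∀ m : ℕ, 2 ≤ m → m ∉ E → ∀ K : ℕ, 1 ≤ K → (K : ℝ) ≤ (m : ℝ) ^ δ →
        -- a power of small logarithmic complexity forces a compression point beyond `K`
        (∀ n, 1 ≤ n → (cpx (m ^ n) : ℝ) ≤ (3 + c / (K * Real.log (K + 1))) * Real.logb 3 ((m : ℝ) ^ n) →
          ∃ j ∈ compressionPoints m, K < j ∧ j ≤ n ∧
            (cpx (m ^ j) : ℝ) ≤ (3 + c / (K * Real.log (K + 1))) * Real.logb 3 ((m : ℝ) ^ j)) ∧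
        -- so all powers have larger logarithmic complexity if there is no such compression point
        (compressionPoints m ⊆ Set.Iic K →
          ∀ n, 1 ≤ n → (3 + c / (K * Real.log (K + 1))) * Real.logb 3 ((m : ℝ) ^ n) < cpx (m ^ n)) := by
  classical
  obtain ⟨η', hη'def⟩ : ∃ η', min η 1 = η' := ⟨_, rfl⟩
  have hη' : 0 < η' := by rw [← hη'def]; exact lt_min hη one_pos
  have hη'1 : η' ≤ 1 := by rw [← hη'def]; exact min_le_right _ _
  have hη'η : η' ≤ η := by rw [← hη'def]; exact min_le_left _ _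
  refine ⟨cst η', cst_pos hη', η' / 4, by positivity,
    {m : ℕ | 2 ≤ m ∧ ∃ k : ℕ, 1 ≤ k ∧ (k : ℝ) ≤ (m : ℝ) ^ (η' / 4) ∧
      (cpx (m ^ k) : ℝ) ≤ (3 + cst η' / (k * Real.log (k + 1))) * Real.logb 3 ((m : ℝ) ^ k)},
    ⟨24 / η', fun x => ?_⟩, fun m hm hmE K hK hKm => ?_⟩
  · refine (count_small hη' hη'1 x).trans ?_
    rcases Nat.eq_zero_or_pos x with rfl | hx
    · rw [Nat.cast_zero, Real.zero_rpow hη'.ne', Real.zero_rpow hη.ne']
    · have hx1 : (1 : ℝ) ≤ x := by exact_mod_cast hx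
      gcongr
  have hm1 : (1 : ℝ) ≤ m := by
    have : 1 ≤ m := by omega
    exact_mod_cast this
  have hK1 : (1 : ℝ) ≤ K := by exact_mod_cast hK
  have hsmall : ∀ k : ℕ, 1 ≤ k → k ≤ K →
      (3 + cst η' / (K * Real.log (K + 1))) * Real.logb 3 ((m : ℝ) ^ k) < cpx (m ^ k) := by
    intro k hk1 hkK
    by_contra hcon
    have hkK' : (k : ℝ) ≤ K := by exact_mod_cast hkK
    have hk1' : (1 : ℝ) ≤ k := by exact_mod_cast hk1
    refine hmE ⟨hm, k, hk1, hkK'.trans hKm, (not_lt.1 hcon).trans ?_⟩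
    have h0 : 0 ≤ Real.logb 3 ((m : ℝ) ^ k) := Real.logb_nonneg (by norm_num) (one_le_pow₀ hm1)
    have hlk : 0 < Real.log ((k : ℝ) + 1) := Real.log_pos (by linarith)
    have hc := (cst_pos hη').le
    gcongr
  have hfirst : ∀ n, 1 ≤ n → (cpx (m ^ n) : ℝ) ≤ (3 + cst η' / (K * Real.log (K + 1))) * Real.logb 3 ((m : ℝ) ^ n) →
      ∃ j ∈ compressionPoints m, K < j ∧ j ≤ n ∧
        (cpx (m ^ j) : ℝ) ≤ (3 + cst η' / (K * Real.log (K + 1))) * Real.logb 3 ((m : ℝ) ^ j) := by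
    obtain ⟨ε, hε⟩ : ∃ ε, cst η' / (K * Real.log (K + 1)) = ε := ⟨_, rfl⟩
    rw [hε] at hsmall ⊢
    intro n hn hcheap
    have hex : ∃ j, 1 ≤ j ∧ (cpx (m ^ j) : ℝ) ≤ (3 + ε) * Real.logb 3 ((m : ℝ) ^ j) := ⟨n, hn, hcheap⟩
    obtain ⟨h1, h2⟩ := Nat.find_spec hex
    have h3 : Nat.find hex ≤ n := Nat.find_min' hex ⟨hn, hcheap⟩
    have h4 : K < Nat.find hex := by
      by_contra hcon
      exact absurd h2 (not_le.2 (hsmall _ h1 (not_lt.1 hcon)))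
    refine ⟨Nat.find hex, ?_, h4, h3, h2⟩
    refine least_cheap (c := (3 + ε) * Real.logb 3 m) (by omega) ?_ ?_
    · rw [Real.logb_pow] at h2
      linarith
    · intro i hi hij
      have h5 := Nat.find_min hex hij
      have h6 : ¬ (cpx (m ^ i) : ℝ) ≤ (3 + ε) * Real.logb 3 ((m : ℝ) ^ i) := fun h => h5 ⟨hi, h⟩
      rw [Real.logb_pow, not_le] at h6
      linarith
  refine ⟨hfirst, fun hsub n hn => ?_⟩
  by_contra hcon
  obtain ⟨j, hj, hKj, -, -⟩ := hfirst n hn (not_lt.1 hcon)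
  exact absurd (hsub hj) (not_le.2 hKj)

end Pool.Agent.Results.MP_9ca56c_nt.UniformGap
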